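import Pool.Agent.H731R6.Bc.Fin
import Pool.Agent.V11321.BC.Fin

/-!
Critical bond percolation on the half-infinite cylinder over the square lattice (rotated by 45
degrees) with `n` boundary vertices: the exact law of the number of the boundary vertices of the
cluster of a boundary vertex, its limit law and its local limit law at the scale `n ^ (2/3)`, the
asymptotics of all the moments, the exact mean number of the boundary clusters with exactly `k`
boundary vertices, and the limit of the mean number of the macroscopic boundary clusters (the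
intensity measure of the rescaled sizes).

The vertices are the `(a, t)`, `a` modulo `2 n` (column), `t = 0, 1, 2, …` (depth), `a + t` even. The
cell between the columns `a`, `a + 1` and the depths `t`, `t + 1` contains exactly one edge, the
diagonal between its two vertices.

The proof of the parts (1)-(3) is in the starting files `Pool.Agent.H731R6.Bc`; the parts (4)-(8)
are new (`Pool.Agent.V11321.BC`).
-/

set_option autoImplicit false

namespace Pool.Agent.Results.MP_fe58d8_pr.BoundaryClusterLaw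

open MeasureTheory

/-- configurations of the half-infinite cylinder: one bit for every cell, that is, for every edge -/
abbrev Conf (n : ℕ) : Type := ZMod (2 * n) × ℕ → Bool

/-- `p` (upper end) and `r` (lower end) are the ends of the edge of the cell `(a, t)` -/
def CellEnds (n : ℕ) (a : ZMod (2 * n)) (t : ℕ) (p r : ZMod (2 * n) × ℕ) : Prop :=
  (Even (a.val + t) ∧ p = (a, t) ∧ r = (a + 1, t + 1)) ∨
    (¬ Even (a.val + t) ∧ p = (a + 1, t) ∧ r = (a, t + 1))

/-- `p` (upper end) and `r` (lower end) are the ends of an open edge -/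
def OpenAdj (n : ℕ) (ω : Conf n) (p r : ZMod (2 * n) × ℕ) : Prop :=
  ∃ (a : ZMod (2 * n)) (t : ℕ), ω (a, t) = true ∧ CellEnds n a t p r

/-- bond percolation at `p = 1/2`: independent fair coins -/
noncomputable def perc (n : ℕ) : Measure (Conf n) :=
  Measure.infinitePi (fun _ => (PMF.uniformOfFintype Bool).toMeasure)

/-- the boundary vertices joined to `(0, 0)` by an open path -/
def bcl (n : ℕ) (ω : Conf n) : Set (ZMod (2 * n)) :=
  {b | Relation.EqvGen (OpenAdj n ω) (0, 0) (b, 0)}

/-- the boundary vertices joined to `(a, 0)` by an open path -/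
def cluster (n : ℕ) (ω : Conf n) (a : ZMod (2 * n)) : Set (ZMod (2 * n)) :=
  {b | Relation.EqvGen (OpenAdj n ω) (a, 0) (b, 0)}

/-- the number of the boundary clusters whose number of boundary vertices is in `S` -/
noncomputable def num (n : ℕ) (S : Set ℕ) (ω : Conf n) : ℕ :=
  {C : Set (ZMod (2 * n)) | ∃ a : ZMod (2 * n),
    Even a.val ∧ C = cluster n ω a ∧ C.ncard ∈ S}.ncard

/-- an explicit product -/
noncomputable def pr (n k : ℕ) : ℝ :=
  ((2 * k).choose k : ℝ) * (3 * k * (2 * (n : ℝ) ^ 2 + 3 * (k : ℝ) ^ 3 - k)) /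
    (2 * (2 * k - 1) * (k + 1) * (4 * (n : ℝ) ^ 2 - (k : ℝ) ^ 2)) *
    (((n + k - 1).factorial : ℝ) * (2 * n - k).factorial) /
      (((n - k).factorial : ℝ) * (2 * n + k - 1).factorial)

/-- **The law of the number of the boundary vertices of a boundary cluster, and the mean numbers of
the boundary clusters.** (1) The exact probability that the cluster of a boundary vertex has at
least `k` boundary vertices. (2) The tail at the scale `n ^ (2/3)`. (3) The asymptotics of all the
moments. (4) The exact probability of exactly `k` boundary vertices. (5) The local limit theorem.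
(6) The exact mean number of the boundary clusters with exactly `k` boundary vertices. (7) Its
asymptotics for `k ∼ x n ^ (2/3)`. (8) The limit of the mean number of the boundary clusters with
at least `x n ^ (2/3)` boundary vertices. -/
theorem result :
    (∀ n k : ℕ, 1 ≤ k → k ≤ n → (perc n).real {ω | k ≤ (bcl n ω).ncard} =
      ((2 * k).choose k : ℝ) * (3 * k - 1) / (2 * (2 * k - 1)) *
      (((n + k - 1).factorial : ℝ) * (2 * n - k).factorial) /
        (((n - k).factorial : ℝ) * (2 * n + k - 1).factorial)) ∧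
    (∀ x : ℝ, 0 < x → Filter.Tendsto (fun n : ℕ => (n : ℝ) ^ ((1:ℝ)/3) *
        (perc n).real {ω | x * (n : ℝ) ^ ((2:ℝ)/3) ≤ ((bcl n ω).ncard : ℝ)}) Filter.atTop
      (nhds (3 / (2 * Real.sqrt Real.pi) * x ^ (-(1:ℝ)/2) * Real.exp (-(x ^ 3 / 4))))) ∧
    (∀ m : ℕ, 1 ≤ m → Filter.Tendsto (fun n : ℕ =>
        (∫ ω, ((bcl n ω).ncard : ℝ) ^ m ∂(perc n)) / (n : ℝ) ^ ((2 * (m : ℝ) - 1)/3)) Filter.atTop
      (nhds ((m : ℝ) / (2 * Real.sqrt Real.pi) * 4 ^ ((2 * (m : ℝ) - 1)/6) *
        Real.Gamma ((2 * (m : ℝ) - 1)/6)))) ∧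
    (∀ n k : ℕ, 1 ≤ k → k ≤ n → (perc n).real {ω | (bcl n ω).ncard = k} = pr n k) ∧
    (∀ x : ℝ, 0 < x → ∀ k : ℕ → ℕ,
      Filter.Tendsto (fun n : ℕ => (k n : ℝ) / (n : ℝ) ^ ((2:ℝ)/3)) Filter.atTop (nhds x) →
      Filter.Tendsto (fun n : ℕ => (n : ℝ) * (perc n).real {ω | (bcl n ω).ncard = k n})
        Filter.atTop (nhds (3 / (8 * Real.sqrt Real.pi) * (2 + 3 * x ^ 3) / (x * Real.sqrt x) *
          Real.exp (-(x ^ 3 / 4))))) ∧
    (∀ n k : ℕ, 1 ≤ k → k ≤ n → ∫ ω, (num n {k} ω : ℝ) ∂(perc n) = n * pr n k / k) ∧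
    (∀ x : ℝ, 0 < x → ∀ k : ℕ → ℕ,
      Filter.Tendsto (fun n : ℕ => (k n : ℝ) / (n : ℝ) ^ ((2:ℝ)/3)) Filter.atTop (nhds x) →
      Filter.Tendsto (fun n : ℕ => (n : ℝ) ^ ((2:ℝ)/3) * ∫ ω, (num n {k n} ω : ℝ) ∂(perc n))
        Filter.atTop (nhds (3 / (8 * Real.sqrt Real.pi) * (2 + 3 * x ^ 3) /
          (x ^ 2 * Real.sqrt x) * Real.exp (-(x ^ 3 / 4))))) ∧
    (∀ x : ℝ, 0 < x → Filter.Tendsto (fun n : ℕ =>
        ∫ ω, (num n {k : ℕ | x * (n : ℝ) ^ ((2:ℝ)/3) ≤ (k : ℝ)} ω : ℝ) ∂(perc n)) Filter.atTop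
      (nhds (Real.exp (-(x ^ 3 / 4)) / (2 * Real.sqrt Real.pi * (x * Real.sqrt x)) +
        3 / (4 * Real.sqrt Real.pi) *
          ∫ y in Set.Ioi x, Real.sqrt y * Real.exp (-(y ^ 3 / 4))))) :=
  ⟨H731B.main.1, H731B.main.2.1, H731B.main.2.2, Pool.Agent.V11321.BC.main⟩

end Pool.Agent.Results.MP_fe58d8_pr.BoundaryClusterLaw
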