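import Pool.Agent.H980R2.Cont.Main
import Pool.Agent.H980R2.Cont.Mom
import Pool.Agent.V11321.CL.Loc

/-!
Critical bond percolation on `ℤ²` (`p = 1/2`) in a half-infinite strip of width `2 n + 1`: the exact
law of the number of the vertices of the end of the strip which are joined to the right side (a
product formula), its limit law after division by `(width) ^ (2/3)`, the convergence of all the
moments, and the local limit theorem. These vertices are the contacts with the end of the strip of
the exploration path which starts at the right corner of the end, with the right side wired and the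
other sides dual-wired.

Coordinates: the vertex `(u, v)` of `ℤ²` is at `X + i Y`, `X = u - v`, `Y = u + v` (rotation by 45
degrees); the strip is `0 ≤ X ≤ L`, `Y ≤ 1`.

The starting files `Pool.Agent.H980R2.Cont` prove the parts (2), (3) and a form of (1) with double
sums; the product formula (1) (creative telescoping) and the local limit theorem (4) are new
(`Pool.Agent.V11321.CL`).
-/

set_option autoImplicit false

namespace Pool.Agent.Results.MP_fe58d8_pr.ContactLaw

open MeasureTheory

/-- edges of `ℤ²`: `(u,v,false)` joins `(u,v)` and `(u+1,v)`; `(u,v,true)` joins `(u,v)` and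
`(u,v+1)`. -/
abbrev Edge := ℤ × ℤ × Bool

/-- configurations (`true` = open) -/
abbrev Conf := Edge → Bool

/-- `a` and `b` are the two ends of an open edge -/
def OpenAdj (ω : Conf) (a b : ℤ × ℤ) : Prop :=
  (b = (a.1 + 1, a.2) ∧ ω (a.1, a.2, false) = true) ∨
  (a = (b.1 + 1, b.2) ∧ ω (b.1, b.2, false) = true) ∨
  (b = (a.1, a.2 + 1) ∧ ω (a.1, a.2, true) = true) ∨
  (a = (b.1, b.2 + 1) ∧ ω (b.1, b.2, true) = true)

/-- bond percolation at `p = 1/2`: independent fair coins on the edges -/
noncomputable def perc : Measure Conf :=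
  Measure.infinitePi (fun _ : Edge => (PMF.uniformOfFintype Bool).toMeasure)

/-- the half-infinite strip `0 ≤ X ≤ L`, `Y ≤ 1` -/
def InStrip (L : ℕ) (x : ℤ × ℤ) : Prop := 0 ≤ x.1 - x.2 ∧ x.1 - x.2 ≤ L ∧ x.1 + x.2 ≤ 1

/-- joined by an open path of the half-infinite strip -/
def Joined (L : ℕ) (ω : Conf) : ℤ × ℤ → ℤ × ℤ → Prop :=
  Relation.ReflTransGen (fun a b => OpenAdj ω a b ∧ InStrip L a ∧ InStrip L b)

/-- the vertices of the end `Y = 1` of the strip, not on the right side, which are joined to the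
right side `X = L` -/
def contacts (L : ℕ) (ω : Conf) : Set (ℤ × ℤ) :=
  {x | x.1 + x.2 = 1 ∧ 0 ≤ x.1 - x.2 ∧ x.1 - x.2 < (L : ℤ) ∧
    ∃ y : ℤ × ℤ, y.1 - y.2 = (L : ℤ) ∧ Joined L ω x y}

/-- **The law of the number of contacts.** (1) The exact law, as a product. (2) The number of
contacts divided by `(2 n + 1) ^ (2/3)` converges in law to the probability law on `[0, ∞)` with
density `exp (-x³) / Γ(4/3)`. (3) All the moments converge. (4) The local limit theorem, for all the
sequences `k n` with `k n / (2 n + 1) ^ (2/3) → x`, `x ≥ 0`; for `k n = 0` it gives the asymptotics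
of the probability that there is no contact. -/
theorem result :
    (∀ n : ℕ, 1 ≤ n → ∀ k : ℕ, k ≤ n →
      perc.real {ω | (contacts (2*n+1) ω).ncard = k} =
        1 / 2 * (∏ m ∈ Finset.Icc 1 (n - 1),
          ((2 * (m:ℝ) + 1) * (3 * m + 5)) / ((m + 2) * (6 * m + 5))) *
        ∏ i ∈ Finset.range k,
          ((2 * (n : ℝ) + 2 * i + 3) * (2 * n - 2 * i)) / ((2 * n - i) * (2 * n + i + 3))) ∧
    (∀ t : ℝ, 0 ≤ t → Filter.Tendsto
      (fun n : ℕ => perc.real {ω | ((contacts (2*n+1) ω).ncard : ℝ) ≤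
        t * (2*(n:ℝ)+1) ^ ((2:ℝ)/3)}) Filter.atTop
      (nhds ((∫ x in (0:ℝ)..t, Real.exp (-x^3)) / Real.Gamma (4/3)))) ∧
    (∀ m : ℕ, Filter.Tendsto
      (fun n : ℕ => ∫ ω, (((contacts (2*n+1) ω).ncard : ℝ) / (2*(n:ℝ)+1) ^ ((2:ℝ)/3)) ^ m ∂perc)
      Filter.atTop (nhds (Real.Gamma (((m:ℝ)+1)/3) / Real.Gamma (1/3)))) ∧
    (∀ x : ℝ, 0 ≤ x → ∀ k : ℕ → ℕ,
      Filter.Tendsto (fun n : ℕ => (k n : ℝ) / (2*(n:ℝ)+1) ^ ((2:ℝ)/3)) Filter.atTop (nhds x) →
      Filter.Tendsto (fun n : ℕ => (2*(n:ℝ)+1) ^ ((2:ℝ)/3) *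
        perc.real {ω | (contacts (2*n+1) ω).ncard = k n}) Filter.atTop
        (nhds (Real.exp (-x^3) / Real.Gamma (4/3)))) := by
  refine ⟨fun n hn k hk => ?_, fun t ht => ?_, fun m => ?_, fun x hx k hk => ?_⟩
  · exact Pool.Agent.V11321.CL.law hn hk
  · exact Pool.Agent.H980R2.Cont.limit_law t ht
  · exact Pool.Agent.H980R2.Cont.moments m
  · exact Pool.Agent.V11321.CL.loc x hx k hk

end Pool.Agent.Results.MP_fe58d8_pr.ContactLaw
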