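import Pool.Agent.H731R6.Bc.HP5
import Pool.Agent.V11321.HPL.Law

/-!
Critical bond percolation on the half-plane over the square lattice (rotated by 45 degrees), free
boundary: the exact law of the number of the boundary vertices of the open cluster of a boundary
vertex, and the exact joint law of the numbers `A`, `B` of these boundary vertices on the left and
on the right of the given one: `P(A ≥ i, B ≥ j) = C(2 (i + j), i + j) / 4 ^ (i + j)` (the
probability that the simple random walk is at `0` at the time `2 (i + j)`), with its scaling limit.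
Conformal invariance predicts the exponent `1/2 = (1/3) / (2/3)`.

The vertices are the `(a, t)`, `a` an integer (column), `t = 0, 1, 2, …` (depth), `a + t` even. The
cell between the columns `a`, `a + 1` and the depths `t`, `t + 1` contains exactly one edge, the
diagonal between its two vertices.

The proof of the part (1) is in the starting files `Pool.Agent.H731R6.Bc`; the parts (2)-(4) are
new (`Pool.Agent.V11321.HPL`).
-/

set_option autoImplicit false

namespace Pool.Agent.Results.MP_fe58d8_pr.HalfPlaneClusterLaw

open MeasureTheory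

/-- configurations of the half-plane: one bit for every cell, that is, for every edge -/
abbrev Conf : Type := ℤ × ℕ → Bool

/-- `p` (upper end) and `r` (lower end) are the ends of an open edge -/
def OpenAdj (ω : Conf) (p r : ℤ × ℕ) : Prop :=
  ∃ (a : ℤ) (t : ℕ), ω (a, t) = true ∧
    ((Even (a + t) ∧ p = (a, t) ∧ r = (a + 1, t + 1)) ∨
      (¬ Even (a + t) ∧ p = (a + 1, t) ∧ r = (a, t + 1)))

/-- bond percolation at `p = 1/2`: independent fair coins -/
noncomputable def perc : Measure Conf :=
  Measure.infinitePi (fun _ => (PMF.uniformOfFintype Bool).toMeasure)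

/-- the boundary vertices joined to `(0, 0)` by an open path -/
def bcl (ω : Conf) : Set ℤ := {b | Relation.EqvGen (OpenAdj ω) (0, 0) (b, 0)}

/-- the boundary vertices of the cluster of `(0, 0)` on the left of `(0, 0)` -/
def left (ω : Conf) : Set ℤ := bcl ω ∩ {b | b < 0}

/-- the boundary vertices of the cluster of `(0, 0)` on the right of `(0, 0)` -/
def right (ω : Conf) : Set ℤ := bcl ω ∩ {b | 0 < b}

/-- **The exact law of the boundary vertices of a boundary cluster of the half-plane.** (1) The law
of their number. (2) The joint law of the numbers of those on the left and on the right of the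
given vertex (tails). (3) The same, exact values: given the number `k` of the boundary vertices of
the cluster, the rank of the given vertex is uniform. (4) The scaling limit of the joint law. -/
theorem result :
    (∀ k : ℕ, 1 ≤ k → perc.real {ω | (k : ℕ∞) ≤ (bcl ω).encard} =
      ((2 * k).choose k : ℝ) * (3 * k - 1) / ((2 * k - 1) * 4 ^ k)) ∧
    (∀ i j : ℕ, perc.real {ω | (i : ℕ∞) ≤ (left ω).encard ∧ (j : ℕ∞) ≤ (right ω).encard} =
      ((2 * (i + j)).choose (i + j) : ℝ) / 4 ^ (i + j)) ∧
    (∀ i j : ℕ, perc.real {ω | (left ω).encard = i ∧ (right ω).encard = j} =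
      3 * ((2 * (i + j + 1)).choose (i + j + 1) : ℝ) /
        ((2 * ((i : ℝ) + j) + 1) * (2 * ((i : ℝ) + j) + 4) * 4 ^ (i + j + 1))) ∧
    (∀ a b : ℝ, 0 ≤ a → 0 ≤ b → 0 < a + b → Filter.Tendsto (fun m : ℕ => Real.sqrt m *
        perc.real {ω | (⌈a * m⌉₊ : ℕ∞) ≤ (left ω).encard ∧ (⌈b * m⌉₊ : ℕ∞) ≤ (right ω).encard})
      Filter.atTop (nhds (1 / Real.sqrt (Real.pi * (a + b))))) :=
  ⟨fun _ hk => H731B.half_plane hk, fun i j => Pool.Agent.V11321.HPL.joint i j,
    fun i j => Pool.Agent.V11321.HPL.joint_eq i j,
    fun a b ha hb hab => Pool.Agent.V11321.HPL.joint_lim a b ha hb hab⟩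

end Pool.Agent.Results.MP_fe58d8_pr.HalfPlaneClusterLaw
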