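import Pool.Agent.V11321.HPD.Fin

/-!
Critical bond percolation on the half-plane over the square lattice (rotated by 45 degrees), free
boundary: strong laws of large numbers, with exact densities, for the open clusters along the
boundary. Almost surely, among the open clusters that meet the first `n` boundary vertices, the
proportion of those with more than `k` boundary vertices tends, as `n → ∞`, to
`Catalan(k) / 4 ^ k` (which is of the order of `k ^ (-3/2)`; conformal invariance predicts the
exponent `3/2 = 1 / (2/3)`, as the boundary vertices of a large cluster have the dimension `2/3`).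

The vertices are the `(a, t)`, `a` an integer (column), `t = 0, 1, 2, …` (depth), `a + t` even. The
cell between the columns `a`, `a + 1` and the depths `t`, `t + 1` contains exactly one edge, the
diagonal between its two vertices. The boundary vertices are the `(2 m, 0)`.

The proofs are in `Pool.Agent.V11321.HPD` (new), over the exact joint law of
`Pool.Agent.V11321.HPL` and the starting files `Pool.Agent.H731R6.Bc`.
-/

set_option autoImplicit false

namespace Pool.Agent.Results.MP_fe58d8_pr.HalfPlaneDensities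

open MeasureTheory Filter Topology

/-- configurations of the half-plane: one bit for every cell, that is, for every edge -/
abbrev Conf : Type := ℤ × ℕ → Bool

/-- `p` (upper end) and `r` (lower end) are the ends of an open edge -/
def OpenAdj (ω : Conf) (p r : ℤ × ℕ) : Prop :=
  ∃ (a : ℤ) (t : ℕ), ω (a, t) = true ∧
    ((Even (a + t) ∧ p = (a, t) ∧ r = (a + 1, t + 1)) ∨
      (¬ Even (a + t) ∧ p = (a + 1, t) ∧ r = (a, t + 1)))

/-- bond percolation at `p = 1/2`: independent fair coins -/
noncomputable def perc : Measure Conf :=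
  Measure.infinitePi (fun _ => (PMF.uniformOfFintype Bool).toMeasure)

/-- the (first coordinates of the) boundary vertices joined to the boundary vertex `(d, 0)` by an
open path -/
def cl (ω : Conf) (d : ℤ) : Set ℤ := {b | Relation.EqvGen (OpenAdj ω) (d, 0) (b, 0)}

/-- the open clusters (given by their sets of boundary vertices) that contain one of the first `n`
boundary vertices `(0, 0), (2, 0), …, (2 n - 2, 0)` -/
def clusters (ω : Conf) (n : ℕ) : Set (Set ℤ) := {C | ∃ m : ℕ, m < n ∧ C = cl ω (2 * m)}

/-- **Strong laws of large numbers for the boundary clusters of the half-plane, with the exact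
densities.** Almost surely: (1) for all `i`, `j`, the proportion of the vertices among the first
`n` boundary vertices that have exactly `i` boundary vertices of their cluster on their left and
exactly `j` on their right tends to `3 C(2k,k) / ((2k-1) (2k+2) 4^k)`, `k = i + j + 1`; (2) the
number of the clusters with more than `k` boundary vertices that meet the first `n` boundary
vertices, divided by `n`, tends to `Catalan(k) / (2 * 4^k)` (in particular, `k = 0`, the number of
the clusters per boundary vertex tends to `1/2`); (3) the proportion of the clusters with more than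
`k` boundary vertices among the clusters that meet the first `n` boundary vertices tends to
`Catalan(k) / 4^k`. (4) `k ^ (3/2)` times the limit in (3) tends to `1/√π`. -/
theorem result :
    (∀ᵐ ω ∂perc,
      (∀ i j : ℕ, Tendsto (fun n : ℕ => (Set.ncard {m : ℕ | m < n ∧
          (cl ω (2 * m) ∩ {b | b < 2 * m}).encard = i ∧
          (cl ω (2 * m) ∩ {b | 2 * m < b}).encard = j} : ℝ) / n) atTop
        (𝓝 (3 * ((2 * (i + j + 1)).choose (i + j + 1) : ℝ) /
          ((2 * ((i : ℝ) + j) + 1) * (2 * ((i : ℝ) + j) + 4) * 4 ^ (i + j + 1))))) ∧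
      (∀ k : ℕ, Tendsto (fun n : ℕ => (Set.ncard {C ∈ clusters ω n | (k : ℕ∞) < C.encard} : ℝ) / n)
        atTop (𝓝 ((catalan k : ℝ) / (2 * 4 ^ k)))) ∧
      (∀ k : ℕ, Tendsto (fun n : ℕ => (Set.ncard {C ∈ clusters ω n | (k : ℕ∞) < C.encard} : ℝ) /
        (clusters ω n).ncard) atTop (𝓝 ((catalan k : ℝ) / 4 ^ k)))) ∧
    Tendsto (fun k : ℕ => (k : ℝ) ^ (3 / 2 : ℝ) * ((catalan k : ℝ) / 4 ^ k)) atTop
      (𝓝 (1 / Real.sqrt Real.pi)) := by
  have hcl : ∀ (ω : Conf) (n : ℕ) (P : Set ℤ → Prop),
      Set.ncard {C ∈ clusters ω n | P C} = Pool.Agent.V11321.HPD.KK P n ω := by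
    intro ω n P
    unfold Pool.Agent.V11321.HPD.KK
    congr 1
    ext C
    constructor
    · rintro ⟨⟨m, hm, rfl⟩, hC⟩
      exact ⟨m, ⟨hm, hC⟩, rfl⟩
    · rintro ⟨m, ⟨hm, hC⟩, rfl⟩
      exact ⟨⟨m, hm, rfl⟩, hC⟩
  have h0 : ∀ (ω : Conf) (n : ℕ), clusters ω n =
      {C ∈ clusters ω n | ((0 : ℕ) : ℕ∞) < C.encard} := by
    intro ω n
    ext C
    constructor
    · intro h
      refine ⟨h, ?_⟩
      obtain ⟨m, hm, rfl⟩ := h
      rw [Nat.cast_zero, Set.encard_pos]
      exact ⟨2 * m, Relation.EqvGen.refl _⟩
    · exact fun h => h.1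
  refine ⟨?_, Pool.Agent.V11321.HPD.cat_lim⟩
  have h1 : ∀ᵐ ω ∂perc, ∀ i j : ℕ, Tendsto (fun n : ℕ => (Set.ncard {m : ℕ | m < n ∧
          (cl ω (2 * m) ∩ {b | b < 2 * m}).encard = i ∧
          (cl ω (2 * m) ∩ {b | 2 * m < b}).encard = j} : ℝ) / n) atTop
        (𝓝 (3 * ((2 * (i + j + 1)).choose (i + j + 1) : ℝ) /
          ((2 * ((i : ℝ) + j) + 1) * (2 * ((i : ℝ) + j) + 4) * 4 ^ (i + j + 1)))) := by
    rw [ae_all_iff]
    intro i
    rw [ae_all_iff]
    intro j
    exact Pool.Agent.V11321.HPD.lim_EE i j
  have h2 : ∀ᵐ ω ∂perc, ∀ k : ℕ, Tendsto (fun n : ℕ =>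
      (Pool.Agent.V11321.HPD.KK (fun C => (k : ℕ∞) < C.encard) n ω : ℝ) / n)
        atTop (𝓝 ((catalan k : ℝ) / (2 * 4 ^ k))) := by
    rw [ae_all_iff]
    exact fun k => Pool.Agent.V11321.HPD.lim_TL k
  filter_upwards [h1, h2] with ω hω1 hω2
  refine ⟨hω1, fun k => ?_, fun k => ?_⟩
  · simp_rw [hcl]
    exact hω2 k
  · have h3 := (hω2 k).div (hω2 0) (by simp)
    have e : (catalan k : ℝ) / (2 * 4 ^ k) / ((catalan 0 : ℝ) / (2 * 4 ^ 0)) =
        (catalan k : ℝ) / 4 ^ k := by
      rw [catalan_zero]
      field_simp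
      norm_num
    rw [e] at h3
    refine h3.congr' ?_
    filter_upwards [eventually_gt_atTop 0] with n hn
    have hn' : (n : ℝ) ≠ 0 := by positivity
    have h4 : (clusters ω n).ncard =
        Pool.Agent.V11321.HPD.KK (fun C => ((0 : ℕ) : ℕ∞) < C.encard) n ω :=
      (congrArg Set.ncard (h0 ω n)).trans (hcl ω n _)
    rw [hcl, h4]
    simp only [Pi.div_apply]
    rw [div_div_div_cancel_right₀ hn']

end Pool.Agent.Results.MP_fe58d8_pr.HalfPlaneDensities
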